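import Pool.Agent.H873MAC.Main
set_option autoImplicit false

/-!
# The optimal expected time of the first success for five users is at least `z_5`

Every algorithm for five users on the slotted multiple-access channel has expected time of the first
success at least `z_5`, so `z_5^* ≥ z_5` (the reverse inequality holds because the two-group partition
scheme is an algorithm).

Proof. Call two users equivalent after a slot if their histories agree.  The potential of a state is
`1` if some class has one user, `z_5` if all five users are equivalent, and
`v = min (z_2, z_3)` if the classes have two and three users.  The potential is a lower bound for the
expected remaining time; this comes down to the definition of `z_5` when all users are equivalent, and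
to a polynomial inequality in the two transmission probabilities for classes of two and three users.
The inequality uses `3 r (1 - r) v ≤ 1 + 3 r^2 (1 - r)` for all `0 < r < 1`.
-/

namespace Pool.Agent.Results.MP_2c026b_lc.FiveUsers

open Pool.Agent.H873MAC

/-- For five users, every algorithm has expected time of the first success at least `z_5`. -/
theorem result : ENNReal.ofReal (z 5) ≤ zstar 5 := le_iInf lower

end Pool.Agent.Results.MP_2c026b_lc.FiveUsers
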