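import Pool.Agent.H873MAC.GenMain
set_option autoImplicit false

/-!
# A lower bound for `z_n^*` for every `n ≥ 3`

For every `n ≥ 3`, every algorithm has expected time of the first success at least `Lb n`, the infimum
over `0 < p < 1` of `(1 + ∑_{i=2}^{n-1} m_i C(n, i) p^i (1-p)^{n-i}) / (1 - p^n - (1-p)^n)`, where
`m_{n-1} = 1` and `m_i` is the golden ratio for `i ≤ n - 2`.  This is the quotient that defines `z_n`
with `min (z_i, z_{n-i})` replaced by the golden ratio for `2 ≤ i ≤ n - 2`.

Proof. Call two users equivalent if their histories agree.  As long as no class has exactly one user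
and not all users are equivalent, the expected remaining time is at least the golden ratio `φ`: if the
users transmit with odds `r_i`, `R = ∑ r_i`, then `∏ (1 + r_i) ≥ (1 + R / 2) ^ 2` because every class has
two users or more, and `(2 - φ) (1 + R / 2) ^ 2 + (φ - 1) ≥ R`.
-/

namespace Pool.Agent.Results.MP_2c026b_lc.GoldenLowerBound

open Pool.Agent.H873MAC Pool.Agent.H873MAC.Gen

/-- For `n ≥ 3` users, every algorithm has expected time of the first success at least `Lb n`. -/
theorem result (n : ℕ) (hn : 3 ≤ n) : ENNReal.ofReal (Lb n) ≤ zstar n := le_iInf (lower hn)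

end Pool.Agent.Results.MP_2c026b_lc.GoldenLowerBound
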